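import Pool.Agent.H369.CFG.Stm

set_option autoImplicit false

/-!
# Project CK, CFG1: the ordered group and the positions (helper155)
-/

namespace Pool.Agent.H155.CFG

open Pool.Agent.H369.TH Pool.Agent.H369.CB Pool.Agent.H369.CFG

/-- the lexicographic plane -/
abbrev V : Type := ℝ ×ₗ ℝ

/-- elements -/
def el (a b : ℝ) : V := toLex (a, b)

theorem el_add (a b c d : ℝ) : el a b + el c d = el (a + c) (b + d) := rfl

theorem el_neg (a b : ℝ) : -el a b = el (-a) (-b) := rfl

theorem el_zero : (0 : V) = el 0 0 := rfl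

theorem el_lt {a b c d : ℝ} : el a b < el c d ↔ a < c ∨ a = c ∧ b < d := Prod.Lex.toLex_lt_toLex

/-- the first coordinate -/
def fst' : V →+ ℝ where
  toFun x := (ofLex x).1
  map_zero' := rfl
  map_add' _ _ := rfl

theorem fst'_el (a b : ℝ) : fst' (el a b) = a := rfl

/-- the second coordinate -/
def snd' : V →+ ℝ where
  toFun x := (ofLex x).2
  map_zero' := rfl
  map_add' _ _ := rfl

theorem snd'_el (a b : ℝ) : snd' (el a b) = b := rfl

theorem fst'_mono : Monotone fst' := by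
  intro x y h
  have h1 : toLex (ofLex x) ≤ toLex (ofLex y) := h
  rw [Prod.Lex.toLex_le_toLex] at h1
  rcases h1 with h2 | h2
  · exact h2.le
  · exact h2.1.le

/-- the group generated by `(1/2, 0)`, `(0, 1)`, `(τ, 0)`, `(α, 0)` -/
noncomputable def Sg (τ α : ℝ) : AddSubgroup V where
  carrier := Set.range fun n : ℤ × ℤ × ℤ × ℤ =>
    n.1 • el (1 / 2) 0 + n.2.1 • el 0 1 + n.2.2.1 • el τ 0 + n.2.2.2 • el α 0
  zero_mem' := ⟨(0, 0, 0, 0), by simp⟩
  add_mem' := by
    rintro _ _ ⟨m, rfl⟩ ⟨n, rfl⟩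
    refine ⟨m + n, ?_⟩
    simp only [Prod.fst_add, Prod.snd_add, add_smul]
    abel
  neg_mem' := by
    rintro _ ⟨m, rfl⟩
    refine ⟨-m, ?_⟩
    simp only [Prod.fst_neg, Prod.snd_neg, neg_smul]
    abel

theorem countable_Sg (τ α : ℝ) : Countable (Sg τ α) :=
  (Set.countable_range fun n : ℤ × ℤ × ℤ × ℤ =>
    n.1 • el (1 / 2) 0 + n.2.1 • el 0 1 + n.2.2.1 • el τ 0 + n.2.2.2 • el α 0).to_subtype

theorem mem1 (τ α : ℝ) : el (1 / 2) 0 ∈ Sg τ α := ⟨(1, 0, 0, 0), by simp⟩

theorem mem2 (τ α : ℝ) : el 0 1 ∈ Sg τ α := ⟨(0, 1, 0, 0), by simp⟩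

theorem mem3 (τ α : ℝ) : el τ 0 ∈ Sg τ α := ⟨(0, 0, 1, 0), by simp⟩

theorem mem4 (τ α : ℝ) : el α 0 ∈ Sg τ α := ⟨(0, 0, 0, 1), by simp⟩

theorem memP (τ α : ℝ) : el 1 0 ∈ Sg τ α := by
  have h := (Sg τ α).add_mem (mem1 τ α) (mem1 τ α)
  rw [el_add] at h
  norm_num at h
  exact h

theorem memx0 (τ α : ℝ) : el 0 (-1) ∈ Sg τ α := by
  have h := (Sg τ α).neg_mem (mem2 τ α)
  rw [el_neg, neg_zero] at h
  exact h

theorem memx1 (τ α : ℝ) : el τ 1 ∈ Sg τ α := by
  have h := (Sg τ α).add_mem (mem3 τ α) (mem2 τ α)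
  rw [el_add, add_zero, zero_add] at h
  exact h

/-- finiteness for the theta series -/
theorem fin_aux (s a : ℝ) : {m : ℤ | ((m * (m - 1) / 2 : ℤ) : ℝ) + m * s ≤ a}.Finite := by
  obtain ⟨B, hB⟩ : ∃ B : ℝ, B = 1 + 2 * |s| + 2 * |a| := ⟨_, rfl⟩
  refine (Set.finite_Icc (-⌈B⌉) ⌈B⌉).subset fun m hm => ?_
  have hm' : ((m * (m - 1) / 2 : ℤ) : ℝ) + m * s ≤ a := hm
  have h1 : 2 * (m * (m - 1) / 2) = m * (m - 1) := Int.mul_ediv_cancel' (Int.even_mul_pred_self m).two_dvd
  have h2 : 2 * ((m * (m - 1) / 2 : ℤ) : ℝ) = (m : ℝ) * (m - 1) := by exact_mod_cast h1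
  have h3 : |(m : ℝ)| ≤ B := by
    by_contra hlt
    rw [not_le] at hlt
    have hs := abs_nonneg s
    have ha := abs_nonneg a
    have h4 : (m : ℝ) ^ 2 = |(m : ℝ)| ^ 2 := (sq_abs _).symm
    have h5 : (m : ℝ) ≤ |(m : ℝ)| := le_abs_self _
    have h6 : -(|(m : ℝ)| * |s|) ≤ m * s := by
      rw [← abs_mul]
      exact neg_abs_le _
    have h7 : a ≤ |a| := le_abs_self a
    have h8 : (1 : ℝ) ≤ |(m : ℝ)| := by linarith
    have h9 : |(m : ℝ)| * B < |(m : ℝ)| ^ 2 := by nlinarith
    have h10 : |(m : ℝ)| ^ 2 ≤ |(m : ℝ)| + 2 * (|(m : ℝ)| * |s|) + 2 * |a| := by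
      rw [← h4]
      nlinarith
    have h11 : |a| ≤ |(m : ℝ)| * |a| := by nlinarith
    rw [hB] at h9
    nlinarith
  rw [abs_le] at h3
  rw [Set.mem_Icc]
  have h4 := Int.le_ceil B
  constructor
  · have : ((-⌈B⌉ : ℤ) : ℝ) ≤ m := by
      push_cast
      linarith
    exact_mod_cast this
  · have : (m : ℝ) ≤ (⌈B⌉ : ℤ) := by linarith
    exact_mod_cast this

/-- the choice of `α` -/
theorem alpha (τ : ℝ) : ∃ α : ℝ, Irrational α ∧ ∀ k : ℤ, τ ≠ α + k := by
  by_cases h : ∃ k : ℤ, τ = √2 + k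
  · obtain ⟨k, hk⟩ := h
    have h2 : Irrational (√2 / 2) := by
      have := irrational_sqrt_two.div_natCast (m := 2) (by norm_num)
      simpa using this
    refine ⟨√2 / 2, h2, fun l hl => ?_⟩
    have h3 : √2 / 2 = ((l - k : ℤ) : ℝ) := by
      push_cast
      linarith
    exact h2.ne_int _ h3
  · exact ⟨√2, irrational_sqrt_two, fun k hk => h ⟨k, hk⟩⟩

theorem snd_smul (k : ℤ) (b : ℝ) : snd' (k • el b 0) = 0 := by
  rw [map_zsmul, snd'_el, smul_zero]

theorem gam : S_Gam := by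
  intro τ hτ0 hτ1
  obtain ⟨α, hα, hατ⟩ := alpha τ
  refine ⟨Sg τ α, inferInstance, inferInstance, inferInstance, ⟨?_⟩⟩
  exact
    { P := ⟨el 1 0, memP τ α⟩
      hf := ⟨el (1 / 2) 0, mem1 τ α⟩
      x0 := ⟨el 0 (-1), memx0 τ α⟩
      x1 := ⟨el τ 1, memx1 τ α⟩
      ta := ⟨el τ 0, mem3 τ α⟩
      oo := ⟨el α 0, mem4 τ α⟩
      r := fst'.comp (Sg τ α).subtype
      mono := fun x y h => fst'_mono h
      countable := countable_Sg τ α
      big := by
        intro s a
        refine (fin_aux (fst' s.1) (fst' a.1)).subset fun m hm => ?_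
        have h1 : fst' (((m * (m - 1) / 2) • (⟨el 1 0, memP τ α⟩ : Sg τ α) + m • s : Sg τ α) : V) ≤
            fst' a.1 := fst'_mono hm
        have h2 : fst' (((m * (m - 1) / 2) • (⟨el 1 0, memP τ α⟩ : Sg τ α) + m • s : Sg τ α) : V) =
            ((m * (m - 1) / 2 : ℤ) : ℝ) + m * fst' s.1 := by
          rw [AddSubgroup.coe_add, AddSubgroup.coe_zsmul, AddSubgroup.coe_zsmul, map_add,
            map_zsmul, map_zsmul, fst'_el, zsmul_eq_mul, zsmul_eq_mul, mul_one]
        show ((m * (m - 1) / 2 : ℤ) : ℝ) + m * fst' s.1 ≤ fst' a.1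
        rw [← h2]
        exact h1
      half := by
        apply Subtype.ext
        show el (1 / 2) 0 + el (1 / 2) 0 = el 1 0
        rw [el_add]
        norm_num
      rP := rfl
      r0 := rfl
      r1 := rfl
      rt := rfl
      lt1 := by
        show el 0 (-1) < el τ 0
        rw [el_lt]
        rcases hτ0.eq_or_lt with h | h
        · exact Or.inr ⟨h, by norm_num⟩
        · exact Or.inl h
      lt2 := by
        show el τ 0 < el 0 (-1) + el 1 0
        rw [el_add, el_lt]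
        left
        linarith
      lt3 := by
        show el τ 0 < el τ 1
        rw [el_lt]
        exact Or.inr ⟨rfl, by norm_num⟩
      lt4 := by
        show el τ 1 < el τ 0 + el 1 0
        rw [el_add, el_lt]
        left
        linarith
      ne01 := by
        intro k h
        have h1 : snd' (el τ 1) = snd' (el 0 (-1) + k • el 1 0) :=
          congrArg (fun x : Sg τ α => snd' x.1) h
        rw [map_add, snd_smul, snd'_el, snd'_el] at h1
        norm_num at h1
      ne0t := by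
        intro k h
        have h1 : snd' (el τ 0) = snd' (el 0 (-1) + k • el 1 0) :=
          congrArg (fun x : Sg τ α => snd' x.1) h
        rw [map_add, snd_smul, snd'_el, snd'_el] at h1
        norm_num at h1
      ne1t := by
        intro k h
        have h1 : snd' (el τ 0) = snd' (el τ 1 + k • el 1 0) :=
          congrArg (fun x : Sg τ α => snd' x.1) h
        rw [map_add, snd_smul, snd'_el, snd'_el] at h1
        norm_num at h1
      ne0o := by
        intro k h
        have h1 : snd' (el 0 (-1)) = snd' (el α 0 + k • el 1 0) :=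
          congrArg (fun x : Sg τ α => snd' x.1) h
        rw [map_add, snd_smul, snd'_el, snd'_el] at h1
        norm_num at h1
      neto := by
        intro k h
        have h1 : fst' (el τ 0) = fst' (el α 0 + k • el 1 0) :=
          congrArg (fun x : Sg τ α => fst' x.1) h
        rw [map_add, map_zsmul, fst'_el, fst'_el, fst'_el, zsmul_eq_mul, mul_one] at h1
        exact hατ k h1
      irr := by
        intro n hn z h
        have h1 : (n : ℝ) * α = z := h
        have hn' : (n : ℝ) ≠ 0 := by exact_mod_cast hn.ne'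
        have h2 : α = (((z : ℚ) / n : ℚ) : ℝ) := by
          push_cast
          field_simp
          linarith
        exact hα.ne_rat _ h2 }

end Pool.Agent.H155.CFG
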